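import Mathlib

/-!
A connected graph of order 10 whose line graph has larger outer-connected domination number
than its middle graph: two copies of `K₄` joined by a path of length 3.
-/

namespace Pool.Agent.Results.MP_9a7beb_co.LineExceedsMiddle

/-- `D` is an outer-connected dominating set of `H`: every vertex outside `D` has a neighbour in
`D`, and the graph induced on the complement of `D` is connected (or empty). -/
def IsOCD {V : Type} (H : SimpleGraph V) (D : Set V) : Prop :=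
  (∀ v, v ∉ D → ∃ w ∈ D, H.Adj v w) ∧ (H.induce Dᶜ).Preconnected

/-- The outer-connected domination number. -/
noncomputable def ocd {V : Type} (H : SimpleGraph V) : ℕ :=
  sInf {k : ℕ | ∃ D : Set V, IsOCD H D ∧ D.ncard = k}

/-- The middle graph of `G`. -/
def middle {V : Type} (G : SimpleGraph V) : SimpleGraph (V ⊕ G.edgeSet) where
  Adj
    | Sum.inl _, Sum.inl _ => False
    | Sum.inl v, Sum.inr e => v ∈ e.1
    | Sum.inr e, Sum.inl v => v ∈ e.1
    | Sum.inr e, Sum.inr f => e ≠ f ∧ ∃ v, v ∈ e.1 ∧ v ∈ f.1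
  symm := ⟨by
    rintro (v | e) (w | f) h
    · exact h
    · exact h
    · exact h
    · exact ⟨h.1.symm, h.2.imp fun v hv => ⟨hv.2, hv.1⟩⟩⟩
  loopless := ⟨by
    rintro (v | e) h
    · exact h
    · exact h.1 rfl⟩

/-- Adjacency: `K₄` on `0,1,2,3`, `K₄` on `6,7,8,9`, and the path `3,4,5,6`. -/
def adjB (i j : Fin 10) : Bool :=
  i != j && ((i.val ≤ 3 && j.val ≤ 3) || (6 ≤ i.val && 6 ≤ j.val) ||
    (3 ≤ i.val && i.val ≤ 6 && 3 ≤ j.val && j.val ≤ 6 && (i.val + 1 == j.val || j.val + 1 == i.val)))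

/-- The graph. -/
def G : SimpleGraph (Fin 10) where
  Adj i j := adjB i j = true
  symm := ⟨by decide⟩
  loopless := ⟨by decide⟩

instance : DecidableRel G.Adj := fun i j => inferInstanceAs (Decidable (adjB i j = true))

theorem closed_all {V : Type} {H : SimpleGraph V} (hH : H.Preconnected) (P : V → Prop)
    (hP : ∀ x y, H.Adj x y → P x → P y) (a b : V) (ha : P a) : P b := by
  obtain ⟨p⟩ := hH a b
  induction p with
  | nil => exact ha
  | cons h _ ih => exact ih (hP _ _ h ha)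

theorem reach_rank {V : Type} {H : SimpleGraph V} {D : Set V} (r : V) (hr : r ∉ D) (rk : V → ℕ)
    (h : ∀ x, x ∉ D → x = r ∨ ∃ y, y ∉ D ∧ H.Adj x y ∧ rk y < rk x) :
    (H.induce Dᶜ).Preconnected := by
  have key : ∀ n x (hx : x ∉ D), rk x = n → (H.induce Dᶜ).Reachable ⟨x, hx⟩ ⟨r, hr⟩ := by
    intro n
    induction n using Nat.strong_induction_on with
    | _ n ih =>
      intro x hx hn
      rcases h x hx with h1 | ⟨y, hy, h1, h2⟩
      · subst h1
        exact SimpleGraph.Reachable.refl _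
      · have h3 : (H.induce Dᶜ).Reachable ⟨x, hx⟩ ⟨y, hy⟩ := SimpleGraph.Adj.reachable h1
        exact h3.trans (ih (rk y) (by omega) y hy rfl)
  intro x y
  exact (key _ x.1 x.2 rfl).trans (key _ y.1 y.2 rfl).symm

/-! ### The middle graph -/

/-- The partner in the matching `01, 23, 67, 89`. -/
def pt : Fin 10 → Fin 10 := ![1, 0, 3, 2, 4, 5, 7, 6, 9, 8]

/-- The set `{4, 5}` together with the matching edges `01, 23, 67, 89`. -/
def D0 : Set (Fin 10 ⊕ G.edgeSet) :=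
  {x | x = Sum.inl 4 ∨ x = Sum.inl 5 ∨ ∃ (v : Fin 10) (h : G.Adj v (pt v)), x = Sum.inr ⟨s(v, pt v), h⟩}

theorem adj_pt (v : Fin 10) : v = 4 ∨ v = 5 ∨ G.Adj v (pt v) := by
  revert v; decide

theorem D0_card : D0.ncard ≤ 6 := by
  have a0 : G.Adj 0 1 := by decide
  have a2 : G.Adj 2 3 := by decide
  have a6 : G.Adj 6 7 := by decide
  have a8 : G.Adj 8 9 := by decide
  have h : D0 ⊆ ({Sum.inl 4, Sum.inl 5, Sum.inr ⟨s(0, 1), a0⟩, Sum.inr ⟨s(2, 3), a2⟩,
      Sum.inr ⟨s(6, 7), a6⟩, Sum.inr ⟨s(8, 9), a8⟩} : Set (Fin 10 ⊕ G.edgeSet)) := by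
    rintro x (rfl | rfl | ⟨v, hv, rfl⟩)
    · simp
    · simp
    · have : s(v, pt v) = s(0, 1) ∨ s(v, pt v) = s(2, 3) ∨ s(v, pt v) = s(6, 7) ∨
          s(v, pt v) = s(8, 9) := by
        revert hv
        revert v
        decide
      rcases this with h | h | h | h
      · have : (⟨s(v, pt v), hv⟩ : G.edgeSet) = ⟨s(0, 1), a0⟩ := Subtype.ext h
        rw [this]
        simp
      · have : (⟨s(v, pt v), hv⟩ : G.edgeSet) = ⟨s(2, 3), a2⟩ := Subtype.ext h
        rw [this]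
        simp
      · have : (⟨s(v, pt v), hv⟩ : G.edgeSet) = ⟨s(6, 7), a6⟩ := Subtype.ext h
        rw [this]
        simp
      · have : (⟨s(v, pt v), hv⟩ : G.edgeSet) = ⟨s(8, 9), a8⟩ := Subtype.ext h
        rw [this]
        simp
  refine (Set.ncard_le_ncard h (Set.toFinite _)).trans ?_
  refine (Set.ncard_insert_le _ _).trans (Nat.succ_le_succ ?_)
  refine (Set.ncard_insert_le _ _).trans (Nat.succ_le_succ ?_)
  refine (Set.ncard_insert_le _ _).trans (Nat.succ_le_succ ?_)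
  refine (Set.ncard_insert_le _ _).trans (Nat.succ_le_succ ?_)
  refine (Set.ncard_insert_le _ _).trans (Nat.succ_le_succ ?_)
  exact (Set.ncard_singleton _).le

/-- Weights used for ranking edges. -/
def wt : Fin 10 → ℕ := ![2, 2, 3, 1, 0, 0, 1, 3, 2, 2]

/-- The rank of a vertex of the middle graph. -/
def rk : Fin 10 ⊕ G.edgeSet → ℕ
  | Sum.inl _ => 100
  | Sum.inr f => Sym2.lift ⟨fun a b => wt a + wt b, fun _ _ => Nat.add_comm _ _⟩ f.1

theorem adj45 : G.Adj 4 5 := by decide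

theorem notMem_D0 (a b : Fin 10) (h : G.Adj a b) (hb : b ≠ pt a) :
    (Sum.inr ⟨s(a, b), h⟩ : Fin 10 ⊕ G.edgeSet) ∉ D0 := by
  rintro (h1 | h1 | ⟨v, hv, h1⟩)
  · cases h1
  · cases h1
  · have h2 : s(a, b) = s(v, pt v) := congrArg Subtype.val (Sum.inr_injective h1)
    apply hb
    rcases Sym2.eq_iff.mp h2 with ⟨rfl, rfl⟩ | ⟨rfl, rfl⟩
    · rfl
    · have : ∀ v, v = pt (pt v) := by decide
      exact this b

theorem mid_isOCD : IsOCD (middle G) D0 := by
  have hdom : ∀ v : Fin 10, ∀ f : G.edgeSet, v ∈ f.1 → Sum.inr f ∉ D0 →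
      ∃ w ∈ D0, (middle G).Adj (Sum.inr f) w := by
    intro v f hv hf
    rcases adj_pt v with rfl | rfl | h
    · exact ⟨Sum.inl 4, Or.inl rfl, hv⟩
    · exact ⟨Sum.inl 5, Or.inr (Or.inl rfl), hv⟩
    · refine ⟨Sum.inr ⟨s(v, pt v), h⟩, Or.inr (Or.inr ⟨v, h, rfl⟩), ?_, v, hv,
        Sym2.mem_mk_left _ _⟩
      intro h2
      exact hf (Or.inr (Or.inr ⟨v, h, by rw [h2]⟩))
  constructor
  · rintro (v | f) hx
    · rcases adj_pt v with rfl | rfl | h
      · exact absurd (Or.inl rfl) hx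
      · exact absurd (Or.inr (Or.inl rfl)) hx
      · exact ⟨Sum.inr ⟨s(v, pt v), h⟩, Or.inr (Or.inr ⟨v, h, rfl⟩), Sym2.mem_mk_left _ _⟩
    · obtain ⟨e, he⟩ := f
      induction e with | h a b => ?_
      exact hdom a _ (Sym2.mem_mk_left _ _) hx
  · apply reach_rank (Sum.inr ⟨s(4, 5), adj45⟩) (notMem_D0 4 5 adj45 (by decide)) rk
    rintro (v | f) hx
    · right
      have h1 : ∀ v : Fin 10, ∃ c, G.Adj v c ∧ c ≠ pt v := by decide
      obtain ⟨c, h2, h3⟩ := h1 v
      refine ⟨Sum.inr ⟨s(v, c), h2⟩, notMem_D0 v c h2 h3, Sym2.mem_mk_left _ _, ?_⟩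
      change wt v + wt c < 100
      have h4 : ∀ v, wt v ≤ 3 := by decide
      have := h4 v
      have := h4 c
      omega
    · obtain ⟨e, he⟩ := f
      induction e with | h a b => ?_
      have hab : G.Adj a b := he
      have hnp : b ≠ pt a := by
        rintro rfl
        exact hx (Or.inr (Or.inr ⟨a, hab, rfl⟩))
      have h1 : ∀ a b : Fin 10, G.Adj a b → b ≠ pt a → s(a, b) = s(4, 5) ∨
          (∃ c, G.Adj a c ∧ c ≠ pt a ∧ wt c < wt b) ∨ (∃ c, G.Adj b c ∧ c ≠ pt b ∧ wt c < wt a) := by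
        decide
      rcases h1 a b hab hnp with h | ⟨c, h2, h3, h4⟩ | ⟨c, h2, h3, h4⟩
      · left
        congr 1
        exact Subtype.ext h
      · right
        refine ⟨Sum.inr ⟨s(a, c), h2⟩, notMem_D0 a c h2 h3, ⟨?_, a, Sym2.mem_mk_left _ _,
          Sym2.mem_mk_left _ _⟩, ?_⟩
        · intro h5
          have h6 : s(a, b) = s(a, c) := congrArg Subtype.val h5
          have := Sym2.congr_right.mp h6
          rw [this] at h4
          exact lt_irrefl _ h4
        · change wt a + wt c < wt a + wt b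
          omega
      · right
        refine ⟨Sum.inr ⟨s(b, c), h2⟩, notMem_D0 b c h2 h3, ⟨?_, b, Sym2.mem_mk_right _ _,
          Sym2.mem_mk_left _ _⟩, ?_⟩
        · intro h5
          have h6 : s(a, b) = s(b, c) := congrArg Subtype.val h5
          rw [Sym2.eq_swap] at h6
          have := Sym2.congr_right.mp h6
          rw [this] at h4
          exact lt_irrefl _ h4
        · change wt b + wt c < wt a + wt b
          omega

/-! ### The line graph -/

/-- The edges meeting `{0,1,2,3}`. -/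
def A1 : Set G.edgeSet := {f | ∃ v : Fin 10, v ∈ f.1 ∧ v.val ≤ 3}

/-- The edges meeting `{6,7,8,9}`. -/
def A2 : Set G.edgeSet := {f | ∃ v : Fin 10, v ∈ f.1 ∧ 6 ≤ v.val}

theorem A_disj (f : G.edgeSet) (h1 : f ∈ A1) (h2 : f ∈ A2) : False := by
  obtain ⟨e, he⟩ := f
  induction e with | h a b => ?_
  have hab : G.Adj a b := he
  obtain ⟨v, hv, hv'⟩ := h1
  obtain ⟨w, hw, hw'⟩ := h2
  have hv2 : v = a ∨ v = b := Sym2.mem_iff.mp hv
  have hw2 : w = a ∨ w = b := Sym2.mem_iff.mp hw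
  have h3 : ∀ a b : Fin 10, G.Adj a b → ¬ ((a.val ≤ 3 ∨ b.val ≤ 3) ∧ (6 ≤ a.val ∨ 6 ≤ b.val)) := by
    decide
  apply h3 a b hab
  constructor
  · rcases hv2 with rfl | rfl
    · exact Or.inl hv'
    · exact Or.inr hv'
  · rcases hw2 with rfl | rfl
    · exact Or.inl hw'
    · exact Or.inr hw'

theorem seven_le {A : Set G.edgeSet} (u : Fin 7 → Fin 10 × Fin 10)
    (hadj : ∀ i, G.Adj (u i).1 (u i).2) (hinj : ∀ i j, s((u i).1, (u i).2) = s((u j).1, (u j).2) → i = j)
    (hA : ∀ i, (⟨s((u i).1, (u i).2), hadj i⟩ : G.edgeSet) ∈ A) : 7 ≤ A.ncard := by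
  have h1 : Set.range (fun i => (⟨s((u i).1, (u i).2), hadj i⟩ : G.edgeSet)) ⊆ A := by
    rintro _ ⟨i, rfl⟩
    exact hA i
  have h2 : Function.Injective (fun i => (⟨s((u i).1, (u i).2), hadj i⟩ : G.edgeSet)) := by
    intro i j hij
    exact hinj i j (congrArg Subtype.val hij)
  have h3 := Set.ncard_le_ncard h1 (Set.toFinite _)
  rw [← Set.image_univ, Set.ncard_image_of_injective _ h2, Set.ncard_univ, Nat.card_fin] at h3
  exact h3

theorem A1_card : 7 ≤ A1.ncard :=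
  seven_le ![(0, 1), (0, 2), (0, 3), (1, 2), (1, 3), (2, 3), (3, 4)] (by decide) (by decide)
    (by
      have h : ∀ i : Fin 7, (((![(0, 1), (0, 2), (0, 3), (1, 2), (1, 3), (2, 3), (3, 4)] :
        Fin 7 → Fin 10 × Fin 10) i).1).val ≤ 3 := by decide
      exact fun i => ⟨_, Sym2.mem_mk_left _ _, h i⟩)

theorem A2_card : 7 ≤ A2.ncard :=
  seven_le ![(6, 5), (6, 7), (6, 8), (6, 9), (7, 8), (7, 9), (8, 9)] (by decide) (by decide)
    (by
      have h : ∀ i : Fin 7, 6 ≤ (((![(6, 5), (6, 7), (6, 8), (6, 9), (7, 8), (7, 9), (8, 9)] :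
        Fin 7 → Fin 10 × Fin 10) i).1).val := by decide
      exact fun i => ⟨_, Sym2.mem_mk_left _ _, h i⟩)

theorem split {D : Set G.edgeSet} (hD : (G.lineGraph.induce Dᶜ).Preconnected)
    (A A' : Set G.edgeSet) (hAA : ∀ f, f ∈ A → f ∈ A' → False)
    (hcl : ∀ f f', f ∉ D → f' ∉ D → G.lineGraph.Adj f f' → f ∈ A → f' ∈ A) :
    A ⊆ D ∨ A' ⊆ D := by
  by_cases h : A ⊆ D
  · exact Or.inl h
  · right
    rw [Set.not_subset] at h
    obtain ⟨f, hf, hfD⟩ := h
    intro f' hf'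
    by_contra hfD'
    apply hAA f' _ hf'
    exact closed_all hD (fun z => z.1 ∈ A) (fun x y hxy hx => hcl x.1 y.1 x.2 y.2 hxy hx)
      ⟨f, hfD⟩ ⟨f', hfD'⟩ hf

theorem line_bound (D : Set G.edgeSet) (hD : IsOCD G.lineGraph D) : 7 ≤ D.ncard := by
  have a34 : G.Adj 3 4 := by decide
  have a56 : G.Adj 5 6 := by decide
  have hmain : A1 ⊆ D ∨ A2 ⊆ D := by
    have hcase : (⟨s(4, 5), adj45⟩ : G.edgeSet) ∈ D ∨ (⟨s(3, 4), a34⟩ : G.edgeSet) ∈ D ∨
        (⟨s(5, 6), a56⟩ : G.edgeSet) ∈ D := by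
      by_cases h : (⟨s(4, 5), adj45⟩ : G.edgeSet) ∈ D
      · exact Or.inl h
      · right
        obtain ⟨w, hw, hadj⟩ := hD.1 _ h
        rw [SimpleGraph.lineGraph_adj_iff_exists] at hadj
        obtain ⟨hne, v, hv, hv'⟩ := hadj
        obtain ⟨e, he⟩ := w
        obtain ⟨c, hc⟩ := hv'
        have hc' : e = s(v, c) := hc
        subst hc'
        have hvc : G.Adj v c := he
        have hv2 : v = 4 ∨ v = 5 := Sym2.mem_iff.mp hv
        have h1 : ∀ v c : Fin 10, G.Adj v c → (v = 4 ∨ v = 5) → s(4, 5) = s(v, c) ∨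
            s(v, c) = s(3, 4) ∨ s(v, c) = s(5, 6) := by decide
        rcases h1 v c hvc hv2 with h2 | h2 | h2
        · exact absurd (Subtype.ext h2) hne
        · left
          have : (⟨s(v, c), he⟩ : G.edgeSet) = ⟨s(3, 4), a34⟩ := Subtype.ext h2
          rwa [this] at hw
        · right
          have : (⟨s(v, c), he⟩ : G.edgeSet) = ⟨s(5, 6), a56⟩ := Subtype.ext h2
          rwa [this] at hw
    have hclos : ∀ (T : Fin 10 → Prop) (x y : Fin 10) (hxy : G.Adj x y),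
        (⟨s(x, y), hxy⟩ : G.edgeSet) ∈ D →
        (∀ v b d : Fin 10, G.Adj v b ∧ G.Adj v d ∧ (T v ∨ T b) ∧ s(v, b) ≠ s(x, y) ∧
          s(v, d) ≠ s(x, y) → (T v ∨ T d)) →
        ∀ f f', f ∉ D → f' ∉ D → G.lineGraph.Adj f f' →
          f ∈ {f : G.edgeSet | ∃ v : Fin 10, v ∈ f.1 ∧ T v} →
          f' ∈ {f : G.edgeSet | ∃ v : Fin 10, v ∈ f.1 ∧ T v} := by
      intro T x y hxy hmem hfin f f' hf hf' hadj hT
      rw [SimpleGraph.lineGraph_adj_iff_exists] at hadj
      obtain ⟨-, v, hv, hv'⟩ := hadj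
      obtain ⟨e, he⟩ := f
      obtain ⟨e', he'⟩ := f'
      obtain ⟨b, hb⟩ := hv
      obtain ⟨d, hd⟩ := hv'
      have hb' : e = s(v, b) := hb
      have hd' : e' = s(v, d) := hd
      subst hb'
      subst hd'
      obtain ⟨w, hw, hTw⟩ := hT
      have hw2 : w = v ∨ w = b := Sym2.mem_iff.mp hw
      have h1 := hfin v b d ⟨he, he', by
        rcases hw2 with rfl | rfl
        · exact Or.inl hTw
        · exact Or.inr hTw, by
        intro h
        apply hf
        have : (⟨s(v, b), he⟩ : G.edgeSet) = ⟨s(x, y), hxy⟩ := Subtype.ext h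
        rwa [this], by
        intro h
        apply hf'
        have : (⟨s(v, d), he'⟩ : G.edgeSet) = ⟨s(x, y), hxy⟩ := Subtype.ext h
        rwa [this]⟩
      rcases h1 with h1 | h1
      · exact ⟨v, Sym2.mem_mk_left _ _, h1⟩
      · exact ⟨d, Sym2.mem_mk_right _ _, h1⟩
    rcases hcase with h | h | h
    · exact split hD.2 A1 A2 A_disj (hclos (fun v => v.val ≤ 3) 4 5 adj45 h (by decide))
    · exact split hD.2 A1 A2 A_disj (hclos (fun v => v.val ≤ 3) 3 4 a34 h (by decide))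
    · exact (split hD.2 A2 A1 (fun f h1 h2 => A_disj f h2 h1)
        (hclos (fun v => 6 ≤ v.val) 5 6 a56 h (by decide))).symm
  rcases hmain with h | h
  · exact A1_card.trans (Set.ncard_le_ncard h (Set.toFinite _))
  · exact A2_card.trans (Set.ncard_le_ncard h (Set.toFinite _))

theorem G_connected : G.Connected := by
  have h : (G.induce (∅ : Set (Fin 10))ᶜ).Preconnected := by
    apply reach_rank (4 : Fin 10) (Set.notMem_empty _) (![2, 2, 2, 1, 0, 1, 2, 3, 3, 3] : Fin 10 → ℕ)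
    intro x _
    have : ∀ x : Fin 10, x = 4 ∨ ∃ y, G.Adj x y ∧ (![2, 2, 2, 1, 0, 1, 2, 3, 3, 3] : Fin 10 → ℕ) y <
      (![2, 2, 2, 1, 0, 1, 2, 3, 3, 3] : Fin 10 → ℕ) x := by decide
    rcases this x with h | ⟨y, h, h'⟩
    · exact Or.inl h
    · exact Or.inr ⟨y, Set.notMem_empty _, h, h'⟩
  refine ⟨fun a b => ?_⟩
  have := h ⟨a, Set.notMem_empty _⟩ ⟨b, Set.notMem_empty _⟩
  exact this.map (SimpleGraph.Embedding.induce _).toHom

/-- A connected graph of order 10 with `ocd (M(G)) ≤ 6 < 7 ≤ ocd (L(G))`. -/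
theorem result : ∃ G : SimpleGraph (Fin 10), G.Connected ∧ ocd (middle G) < ocd G.lineGraph := by
  refine ⟨G, G_connected, ?_⟩
  have h1 : ocd (middle G) ≤ 6 := by
    refine le_trans ?_ D0_card
    apply Nat.sInf_le
    exact ⟨D0, mid_isOCD, rfl⟩
  have h2 : 7 ≤ ocd G.lineGraph := by
    apply le_csInf
    · refine ⟨(Set.univ : Set G.edgeSet).ncard, Set.univ, ⟨?_, ?_⟩, rfl⟩
      · intro v hv
        exact absurd (Set.mem_univ v) hv
      · rintro ⟨x, hx⟩
        exact absurd (Set.mem_univ x) hx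
    · rintro k ⟨D, hD, rfl⟩
      exact line_bound D hD
  omega

end Pool.Agent.Results.MP_9a7beb_co.LineExceedsMiddle
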